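import Pool.Agent.R605.CIP.Key
import Pool.Agent.R605.CIP.Distinct

/-!
# Infinitely many axiomatic extensions of `FL_ew` have the Craig interpolation property

For `k = 1, 2, 3, …` let `L` be the bounded lattice which consists of a bottom, a top and `k`
copies of the chain of the rationals side by side. The algebra `D L` consists of `0`, `1`, an
idempotent coatom `c` and two copies (sides) of `L`; the product of two elements of a side (or of
`c` and an element of a side) is the least element of the side, elements of different sides are
orthogonal, and the join of elements of different sides is `c`. The logics of these algebras are
different axiomatic extensions of `FL_ew` and all of them have the Craig interpolation property.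

Idea of the proof. Suppose that `a → b` is valid and that `v`, `w` are two valuations. It suffices
to find a formula `d` in the common variables with `v(a) ≤ v(d)` and `w(d) ≤ w(b)`, because there
are only finitely many patterns of valuations of the variables of `a` and `b`. If there is no such
formula then one shows that either `v` and `w` can be amalgamated after a homomorphism onto the
two-element algebra, or the values of the formulas in the common variables under `v` and `w`
correspond to each other by an isomorphism of subalgebras; in this case they can be amalgamated by
an endomorphism of `D L` in such a way that `a → b` is not valid.
-/

set_option autoImplicit false

namespace Pool.Agent.Results.MP_dd1479_lc.InfinitelyManyCIP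

open Pool.Agent.R605.CIP

/-- There are infinitely many axiomatic extensions of `FL_ew` with the Craig interpolation
property. -/
theorem result : {L : Set Fm | IsAxExt L ∧ HasCIP L}.Infinite :=
  Set.infinite_of_injective_forall_mem log_injective fun k =>
    ⟨isAxExt_log (D (HS (k + 1))), hasCIP (k + 1)⟩

end Pool.Agent.Results.MP_dd1479_lc.InfinitelyManyCIP
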